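import Pool.Agent.Helper16.CZ.Stmts
import Pool.Agent.Helper40.Wiener

/-! Module TF0: orthogonality for the frequencies of level zero. -/

open Finset Filter MeasureTheory Topology
open scoped ComplexConjugate InnerProductSpace

namespace Pool.Agent.Helper16.CZ

open Pool.Agent.Helper16.AZ (T E Op mm ST_VDH ST_FPV ST_TLR)
open Pool.Agent.Helper16.BZ (EQ GR PD)
open Pool.Agent.Helper16.MD (MS PB Am RW Rich)
open UnitAddTorus (mFourier)

theorem tf0_circ {r : ℕ} (X : Fin r → ℤ) (y : T r) :
    mFourier X y = ((AddCircle.toCircle (∑ i, X i • y i) : Circle) : ℂ) := by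
  show ∏ i, fourier (X i) (y i) = _
  have h2 : ∀ s : Finset (Fin r), ∏ i ∈ s, fourier (X i) (y i) =
      ((AddCircle.toCircle (∑ i ∈ s, X i • y i) : Circle) : ℂ) := by
    intro s
    induction s using Finset.induction_on with
    | empty => simp
    | insert a s ha ih =>
      rw [Finset.prod_insert ha, Finset.sum_insert ha, ih, AddCircle.toCircle_add,
        Circle.coe_mul, fourier_apply]
  exact h2 _

/-- the iterates on the coordinates of level zero -/
theorem tf0_it {r : ℕ} {lev : Fin r → ℕ} {D : Matrix (Fin r) (Fin r) ℤ}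
    {ψ : Fin r → T r → ℝ} {S : T r → T r} (hT : Tw lev D ψ S) (i : Fin r) (hi : lev i = 0)
    (x : T r) (n : ℕ) : (S^[n] x) i = x i + n • (ψ i 0 : UnitAddCircle) := by
  obtain ⟨-, -, hd, hD, hS, -, -⟩ := hT
  have h1 : ∀ y : T r, S y i = y i + (ψ i 0 : UnitAddCircle) := by
    intro y
    rw [hS, hd i y 0 fun j hj => absurd hj (by omega)]
    have h2 : ∑ j, D i j • y j = 0 := by
      refine Finset.sum_eq_zero fun j _ => ?_
      by_cases hj : D i j = 0
      · rw [hj, zero_smul]
      · exact absurd (hD i j hj) (by omega)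
    rw [h2, add_zero]
  induction n with
  | zero => simp
  | succ n ih =>
    rw [Function.iterate_succ_apply', h1, ih, add_smul, one_smul, add_assoc]

theorem tf0_four {r : ℕ} {lev : Fin r → ℕ} {D : Matrix (Fin r) (Fin r) ℤ}
    {ψ : Fin r → T r → ℝ} {S : T r → T r} (hT : Tw lev D ψ S) (X : Fin r → ℤ)
    (hX : ∀ j, X j ≠ 0 → lev j ≤ 0) (x : T r) (P y : ℕ) :
    mFourier X (S^[P * y] x) = mFourier X x *
      ((AddCircle.toCircle (∑ j, ((P : ℤ) * X j) • (ψ j 0 : UnitAddCircle)) : Circle) : ℂ) ^ y := by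
  rw [tf0_circ, tf0_circ, ← Circle.coe_pow, ← Circle.coe_mul, ← AddCircle.toCircle_nsmul,
    ← AddCircle.toCircle_add]
  congr 2
  rw [Finset.smul_sum, ← Finset.sum_add_distrib]
  refine Finset.sum_congr rfl fun j _ => ?_
  by_cases hj : X j = 0
  · simp [hj]
  · rw [tf0_it hT j (by have := hX j hj; omega), smul_add]
    congr 1
    rw [← natCast_zsmul, ← natCast_zsmul, smul_smul, smul_smul]
    congr 1
    push_cast
    ring

theorem st_TF0 : ST_TF0 := by
  intro r lev D ψ S hT P P' X X' x x' hP hP' hX hX' hne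
  obtain ⟨j, hj, hne⟩ := hne
  have h0 := hT.2.2.2.2.2.1
  set Y : Fin r → ℤ := fun j => (P : ℤ) * X j - (P' : ℤ) * X' j with hY
  set u : ℂ := ((AddCircle.toCircle (∑ j, Y j • (ψ j 0 : UnitAddCircle)) : Circle) : ℂ) with hu
  have hYne : Y ≠ 0 := by
    intro h
    apply hne
    have := congrFun h j
    simp only [hY, Pi.zero_apply] at this
    rw [zero_add, pow_one, pow_one]
    omega
  have hYl : ∀ j, Y j ≠ 0 → lev j = 0 := by
    intro j hj
    by_contra hl
    apply hj
    have h1 : X j = 0 := by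
      by_contra h; exact hl (by have := hX j h; omega)
    have h2 : X' j = 0 := by
      by_contra h; exact hl (by have := hX' j h; omega)
    simp [hY, h1, h2]
  have hu1 : u ≠ 1 := by
    intro h
    apply h0 Y hYne hYl 0
    have h3 : AddCircle.toCircle (∑ j, Y j • (ψ j 0 : UnitAddCircle)) = 1 := by
      apply Subtype.ext
      rw [← hu, h]
      rfl
    apply AddCircle.injective_toCircle (T := (1 : ℝ)) one_ne_zero
    rw [h3, AddCircle.toCircle_zero]
  have hun : ‖u‖ = 1 := Circle.norm_coe _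
  set c : ℂ := mFourier X x * conj (mFourier X' x') with hc
  have hterm : ∀ y : ℕ, mFourier X (S^[P * y] x) * conj (mFourier X' (S^[P' * y] x')) =
      c * u ^ y := by
    intro y
    rw [tf0_four hT X hX, tf0_four hT X' hX', map_mul, map_pow, ← Circle.coe_inv_eq_conj,
      ← AddCircle.toCircle_neg]
    have h4 : u = ((AddCircle.toCircle (∑ j, ((P : ℤ) * X j) • (ψ j 0 : UnitAddCircle)) : Circle) : ℂ)
        * ((AddCircle.toCircle (-∑ j, ((P' : ℤ) * X' j) • (ψ j 0 : UnitAddCircle)) : Circle) : ℂ) := by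
      rw [hu, ← Circle.coe_mul, ← AddCircle.toCircle_add, ← sub_eq_add_neg,
        ← Finset.sum_sub_distrib]
      congr 2
      refine Finset.sum_congr rfl fun j _ => ?_
      rw [hY, ← sub_smul]
    rw [h4, hc, mul_pow]
    ring
  have hg := (Pool.Agent.Helper40.Wiener.geom_zero hun hu1).const_mul (c * u)
  rw [mul_zero] at hg
  refine hg.congr fun M => ?_
  rw [Finset.sum_congr rfl fun y _ => hterm y, ← mul_div_assoc]
  congr 1
  rw [Finset.mul_sum, Finset.range_eq_Ico, ← Finset.Ico_add_one_right_eq_Icc]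
  rw [Finset.sum_Ico_eq_sum_range, Finset.sum_Ico_eq_sum_range]
  refine Finset.sum_congr (by simp) fun y _ => ?_
  rw [pow_add]
  ring

end Pool.Agent.Helper16.CZ
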