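import Pool.Agent.Helper16.CZ.Stmts

/-! Module TFD: the function `Fn` depends only on the coordinates of lower level. -/

open Finset Filter MeasureTheory Topology
open scoped ComplexConjugate InnerProductSpace

namespace Pool.Agent.Helper16.CZ

open Pool.Agent.Helper16.AZ (T E Op mm ST_VDH ST_FPV ST_TLR)
open Pool.Agent.Helper16.BZ (EQ GR PD)
open Pool.Agent.Helper16.MD (MS PB Am RW Rich)
open UnitAddTorus (mFourier)

theorem tfd_circ {r : ℕ} (X : Fin r → ℤ) (y : T r) :
    mFourier X y = ((AddCircle.toCircle (∑ i, X i • y i) : Circle) : ℂ) := by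
  show ∏ i, fourier (X i) (y i) = _
  have h2 : ∀ s : Finset (Fin r), ∏ i ∈ s, fourier (X i) (y i) =
      ((AddCircle.toCircle (∑ i ∈ s, X i • y i) : Circle) : ℂ) := by
    intro s
    induction s using Finset.induction_on with
    | empty => simp
    | insert a s ha ih =>
      rw [Finset.prod_insert ha, Finset.sum_insert ha, ih, AddCircle.toCircle_add,
        Circle.coe_mul, fourier_apply]
  exact h2 _

theorem tfd_Fn {r : ℕ} (S : T r → T r) (X : Fin r → ℤ) (n : ℕ) (w : T r) :
    Fn S X n w = ((AddCircle.toCircle (∑ i, X i • ((S^[n] w) i - w i)) : Circle) : ℂ) := by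
  unfold Fn
  rw [← UnitAddTorus.mFourier_neg, tfd_circ, tfd_circ, ← Circle.coe_mul,
    ← AddCircle.toCircle_add, ← Finset.sum_add_distrib]
  congr 2
  refine Finset.sum_congr rfl fun i _ => ?_
  rw [Pi.neg_apply, neg_smul, smul_sub, sub_eq_add_neg]

/-- the summand of level lower than that of `i` -/
theorem tfd_low {r : ℕ} {lev : Fin r → ℕ} {D : Matrix (Fin r) (Fin r) ℤ}
    {ψ : Fin r → T r → ℝ} {S : T r → T r} (hT : Tw lev D ψ S) (i : Fin r) (x y : T r)
    (h : ∀ j, lev j < lev i → x j = y j) : S x i - x i = S y i - y i := by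
  obtain ⟨-, -, hd, hD, hS, -, -⟩ := hT
  rw [hS, hS, hd i x y h]
  have h1 : ∑ j, D i j • x j = ∑ j, D i j • y j := by
    refine Finset.sum_congr rfl fun j _ => ?_
    by_cases hj : D i j = 0
    · rw [hj, zero_smul, zero_smul]
    · rw [h j (hD i j hj)]
  rw [h1]
  abel

theorem tfd_step {r : ℕ} {lev : Fin r → ℕ} {D : Matrix (Fin r) (Fin r) ℤ}
    {ψ : Fin r → T r → ℝ} {S : T r → T r} (hT : Tw lev D ψ S) (ℓ : ℕ) (n : ℕ) :
    ∀ x y : T r, (∀ j, lev j ≤ ℓ → x j = y j) → ∀ j, lev j ≤ ℓ → (S^[n] x) j = (S^[n] y) j := by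
  induction n with
  | zero => intro x y h; exact h
  | succ n ih =>
    intro x y h
    rw [Function.iterate_succ_apply, Function.iterate_succ_apply]
    refine ih (S x) (S y) fun j hj => ?_
    have h1 := tfd_low hT j x y fun k hk => h k (hk.le.trans hj)
    rw [h j hj] at h1
    exact sub_left_injective h1

theorem tfd_diff {r : ℕ} {lev : Fin r → ℕ} {D : Matrix (Fin r) (Fin r) ℤ}
    {ψ : Fin r → T r → ℝ} {S : T r → T r} (hT : Tw lev D ψ S) (ℓ : ℕ) (n : ℕ) :
    ∀ x y : T r, (∀ j, lev j ≤ ℓ → x j = y j) → ∀ j, lev j ≤ ℓ + 1 →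
      (S^[n] x) j - x j = (S^[n] y) j - y j := by
  induction n with
  | zero => intro x y h j hj; simp
  | succ n ih =>
    intro x y h j hj
    rw [Function.iterate_succ_apply', Function.iterate_succ_apply']
    have h1 := tfd_low hT j (S^[n] x) (S^[n] y) fun k hk =>
      tfd_step hT ℓ n x y h k (by omega)
    have h2 := ih x y h j hj
    calc S (S^[n] x) j - x j = (S (S^[n] x) j - (S^[n] x) j) + ((S^[n] x) j - x j) := by abel
      _ = (S (S^[n] y) j - (S^[n] y) j) + ((S^[n] y) j - y j) := by rw [h1, h2]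
      _ = S (S^[n] y) j - y j := by abel

theorem tfd_psi_cont {r : ℕ} {lev : Fin r → ℕ} {D : Matrix (Fin r) (Fin r) ℤ}
    {ψ : Fin r → T r → ℝ} {S : T r → T r} (hT : Tw lev D ψ S) (i : Fin r) :
    Continuous (ψ i) := by
  obtain ⟨⟨L, hL, hl⟩, -⟩ := hT
  refine LipschitzWith.continuous (K := ⟨L, hL⟩) (LipschitzWith.of_dist_le_mul fun x y => ?_)
  rw [Real.dist_eq]
  exact hl i x y

theorem tfd_cont {r : ℕ} {lev : Fin r → ℕ} {D : Matrix (Fin r) (Fin r) ℤ}
    {ψ : Fin r → T r → ℝ} {S : T r → T r} (hT : Tw lev D ψ S) : Continuous S := by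
  refine continuous_pi fun i => ?_
  have hc := tfd_psi_cont hT i
  obtain ⟨-, -, -, -, hS, -, -⟩ := hT
  have h1 : (fun x => S x i) = fun x => x i + (∑ j, D i j • x j) + (ψ i x : UnitAddCircle) :=
    funext fun x => hS x i
  rw [h1]
  refine ((continuous_apply i).add (continuous_finsetSum _ fun j _ =>
    (continuous_zsmul (D i j)).comp (continuous_apply j))).add ?_
  exact (AddCircle.continuous_mk' 1).comp hc

theorem st_TFD : ST_TFD := by
  intro r lev D ψ S hT ℓ X hX n
  have hc := tfd_cont hT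
  constructor
  · unfold Fn
    exact ((mFourier X).continuous.comp (hc.iterate n)).mul
      (Complex.continuous_conj.comp (mFourier X).continuous)
  · intro x y h
    rw [tfd_Fn, tfd_Fn]
    have h1 : ∑ j, X j • ((S^[n] x) j - x j) = ∑ j, X j • ((S^[n] y) j - y j) := by
      refine Finset.sum_congr rfl fun j _ => ?_
      by_cases hj : X j = 0
      · rw [hj, zero_smul, zero_smul]
      · rw [tfd_diff hT ℓ n x y h j (hX j hj)]
    rw [h1]

end Pool.Agent.Helper16.CZ
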