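import Pool.Agent.Helper16.CZ.Stmts

/-! Module TCN: primes whose powers divide an integer. -/

open Finset Filter MeasureTheory Topology
open scoped ComplexConjugate InnerProductSpace

namespace Pool.Agent.Helper16.CZ

open Pool.Agent.Helper16.AZ (T E Op mm ST_VDH ST_FPV ST_TLR)
open Pool.Agent.Helper16.BZ (EQ GR PD)
open Pool.Agent.Helper16.MD (MS PB Am RW Rich)
open UnitAddTorus (mFourier)

theorem st_TCN : ST_TCN := by
  intro i m k z hz S hS hY
  rcases S.eq_empty_or_nonempty with rfl | ⟨p, hp⟩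
  · simp
  have hPB : ∀ q ∈ S, 2 ^ i < q ∧ q ≤ 2 ^ (i + 1) ∧ q.Prime := by
    intro q hq
    have := hS hq
    simp only [PB, mem_filter, mem_Ioc] at this
    exact ⟨this.1.1, this.1.2, this.2.1⟩
  have hdvd : ∏ q ∈ S, q ∣ z.natAbs := by
    refine Finset.prod_primes_dvd _ (fun q hq => (hPB q hq).2.2.prime) ?_
    intro q hq
    obtain ⟨y, -, hy⟩ := hY q hq
    rw [← hy, Int.natAbs_mul, Int.natAbs_pow, Int.natAbs_natCast]
    exact Dvd.dvd.mul_right (dvd_pow_self q (Nat.succ_ne_zero k)) _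
  have hpos : 0 < z.natAbs := Int.natAbs_pos.2 hz
  have h1 : 2 ^ (i * S.card) ≤ z.natAbs := by
    refine le_trans ?_ (Nat.le_of_dvd hpos hdvd)
    rw [pow_mul, ← Finset.prod_const]
    exact Finset.prod_le_prod' (fun q hq => (hPB q hq).1.le)
  have h2 : z.natAbs ≤ 2 ^ ((i + 1) * (k + 1) + m) := by
    obtain ⟨y, hy1, hy⟩ := hY p hp
    rw [← hy, Int.natAbs_mul, Int.natAbs_pow, Int.natAbs_natCast, pow_add 2, pow_mul 2]
    refine Nat.mul_le_mul (Nat.pow_le_pow_left (hPB p hp).2.1 _) ?_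
    have h3 : (y.natAbs : ℤ) ≤ ((2 ^ m : ℕ) : ℤ) := by rw [Int.natCast_natAbs]; exact hy1
    exact_mod_cast h3
  exact (Nat.pow_le_pow_iff_right (by norm_num)).1 (h1.trans h2)

end Pool.Agent.Helper16.CZ
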